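import Pool.Agent.N666.TI.Main

/-!
# MP_ebd556_mp: the multivariate trace inequality with a dimension-free constant

The definitions (`traceNorm`, `LL`, `RR`) are in `Pool.Agent.N666.TI.NS` and
`Pool.Agent.N666.TI.Main`; `Mat d` is `Matrix (Fin d) (Fin d) ℂ`.

The spectral projections of the `A_j` to geometric windows of eigenvalues are orthogonalised one
after the other, in the order of decreasing eigenvalues. The squared Hilbert-Schmidt distance of the
resulting measurement to the spectral projections grows by at most the factor 10 in each step while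
the weight of the steps decreases by the factor 20, so the total error is bounded by the weighted
overlaps of the windows, and those are bounded by the pairwise terms `Tr(A_j+A_k) - ‖A_j-A_k‖₁`.
-/

set_option autoImplicit false

open Matrix
open scoped ComplexOrder MatrixOrder

namespace Pool.Agent.Results.MP_ebd556_mp.DimensionFreeBound

open Pool.Agent.N666.TI

/-- **Positive answer to Q1.** For every `n ≥ 3` there is a constant `c > 0` such that
`L(A₁,…,A_n) ≥ c R(A₁,…,A_n)` for all `d ≥ 1` and all positive `d × d` matrices; moreover
`c = 4 · 20 ^ n` works (for every `n` and `d`). -/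
theorem result :
    (∀ n : ℕ, 3 ≤ n → ∃ c : ℝ, 0 < c ∧ ∀ d : ℕ, 1 ≤ d → ∀ A : Fin n → Matrix (Fin d) (Fin d) ℂ,
      (∀ j, (A j).PosSemidef) → c * RR A ≤ LL A) ∧
    (∀ (n d : ℕ) (A : Fin n → Matrix (Fin d) (Fin d) ℂ),
      (∀ j, (A j).PosSemidef) → (4 * 20 ^ n) * RR A ≤ LL A) := by
  refine ⟨fun n _ => ⟨4 * 20 ^ n, by positivity, fun d _ A hA => main_bound n d A hA⟩, ?_⟩
  intro n d A hA
  exact main_bound n d A hA

end Pool.Agent.Results.MP_ebd556_mp.DimensionFreeBound
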